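import Mathlib

set_option autoImplicit false

open scoped Classical
open Filter Topology

namespace Pool.Agent.Results.MP_f0f1b2_co.SqrtPly

/-- A disc is coded by `(a, b, r)`: centre `(a, b)` and radius `r`. -/
abbrev Disc := ℝ × ℝ × ℝ

/-- The point `p` lies in the closed disc `D`. -/
def Mem (p : ℝ × ℝ) (D : Disc) : Prop := (p.1 - D.1) ^ 2 + (p.2 - D.2.1) ^ 2 ≤ D.2.2 ^ 2

/-- The ply of `F` is at most `t`: no point lies in more than `t` members of `F`. -/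
def PlyLE (F : Finset Disc) (t : ℕ) : Prop :=
  ∀ p : ℝ × ℝ, (F.filter (fun D => Mem p D)).card ≤ t

/-- `χ` is a conflict-free colouring of `F` with `m` colours. -/
def ConflictFree (F : Finset Disc) {m : ℕ} (χ : {D // D ∈ F} → Fin m) : Prop :=
  ∀ p : ℝ × ℝ, (∃ D : {D // D ∈ F}, Mem p D.1) →
    ∃ D : {D // D ∈ F}, Mem p D.1 ∧ ∀ D' : {D // D ∈ F}, Mem p D'.1 → D' ≠ D → χ D' ≠ χ D

/-- Some upper segment `{g ∈ G | g₀ ≤ g}`, `g₀ ∈ G`, has no colour used exactly once. -/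
def Bad {κ : Type} (G : Finset ℝ) (c : ℝ → κ) : Prop :=
  ∃ g₀ ∈ G, ∀ g ∈ G, g₀ ≤ g → ∃ g' ∈ G, g₀ ≤ g' ∧ g' ≠ g ∧ c g' = c g

/-- The insertion game: for every colour of the next height, we may choose the height in the
next set of the list; at the end the coloured set of heights must be bad. -/
def Force {κ : Type} : List (Finset ℝ) → Finset ℝ → (ℝ → κ) → Prop
  | [], G, c => Bad G c
  | A :: L, G, c => ∀ col : κ, ∃ γ ∈ A, γ ∉ G ∧ Force L (insert γ G) (Function.update c γ col)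

/-- At the point `p`, the half planes `y < σ g` (`g ∈ G`, colours `c g`) and the discs of `F`
(colours `χ D`) containing `p` exist and none of them has a colour of its own. -/
def Viol {κ : Type} (σ : ℝ) (G : Finset ℝ) (c : ℝ → κ) (F : Finset Disc) (χ : Disc → κ)
    (p : ℝ × ℝ) : Prop :=
  ((∃ g ∈ G, p.2 < σ * g) ∨ (∃ D ∈ F, Mem p D)) ∧
  (∀ g ∈ G, p.2 < σ * g →
    (∃ g' ∈ G, p.2 < σ * g' ∧ g' ≠ g ∧ c g' = c g) ∨ (∃ D ∈ F, Mem p D ∧ χ D = c g)) ∧
  (∀ D ∈ F, Mem p D →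
    (∃ g ∈ G, p.2 < σ * g ∧ c g = χ D) ∨ (∃ D' ∈ F, Mem p D' ∧ D' ≠ D ∧ χ D' = χ D))

/-- A gadget for the list `L` and the heights `G` at scale `σ`: a finite family `F` of discs in
the strip `|x| ≤ 1` and a finite set `P` of test points. -/
structure Gad (κ : Type) (L : List (Finset ℝ)) (G : Finset ℝ) (σ : ℝ) (F : Finset Disc)
    (P : Finset (ℝ × ℝ)) : Prop where
  σpos : 0 < σ
  box : ∀ D ∈ F, 0 < D.2.2 ∧ |D.1| + D.2.2 ≤ 1
  pts : ∀ p ∈ P, |p.1| ≤ 1 ∧ ∀ g ∈ G, p.2 ≠ σ * g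
  ply : PlyLE F L.length
  win : ∀ (χ : Disc → κ) (c : ℝ → κ), Force L G c → ∃ p ∈ P, Viol σ G c F χ p

/-- scaled and translated disc -/
def sc (x₀ lam : ℝ) (D : Disc) : Disc := (x₀ + lam * D.1, lam * D.2.1, lam * D.2.2)

/-- scaled and translated point -/
def pt (x₀ lam : ℝ) (p : ℝ × ℝ) : ℝ × ℝ := (x₀ + lam * p.1, lam * p.2)

/-- the place where the circle of the new disc `(0, τ² M - 1/4, 1/4)` has height `τ² γ` -/
noncomputable def X (M γ τ : ℝ) : ℝ := τ * Real.sqrt ((M - γ) / 2 - τ ^ 2 * (M - γ) ^ 2)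

/-- the new disc -/
noncomputable def newDisc (M τ : ℝ) : Disc := (0, τ ^ 2 * M - 1 / 4, 1 / 4)

/-- level of a height -/
noncomputable def lv (N g : ℝ) : ℕ := ⌊g / N⌋₊

/-- invariant of the insertion strategy: every colour uses each of the levels `1, …, m` exactly
once, for some `m`. -/
structure Inv {κ : Type} (N : ℝ) (G : Finset ℝ) (c : ℝ → κ) : Prop where
  pos : ∀ g ∈ G, 1 ≤ lv N g
  inj : ∀ g ∈ G, ∀ g' ∈ G, c g = c g' → lv N g = lv N g' → g = g'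
  down : ∀ g ∈ G, ∀ j, 1 ≤ j → j ≤ lv N g → ∃ g' ∈ G, c g' = c g ∧ lv N g' = j

/-- the heights offered in round `s` -/
noncomputable def A (N : ℝ) (T s : ℕ) : Finset ℝ :=
  (Finset.range (T + 2)).image (fun l : ℕ => (l : ℝ) * N + s)

/-- the list of offers in the rounds `s, s+1, …, s+m-1` -/
noncomputable def Lst (N : ℝ) (T : ℕ) : ℕ → ℕ → List (Finset ℝ)
  | _, 0 => []
  | s, m + 1 => A N T s :: Lst N T (s + 1) m


lemma mem_sc (x₀ lam : ℝ) (hl : 0 < lam) (p : ℝ × ℝ) (D : Disc) :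
    Mem (pt x₀ lam p) (sc x₀ lam D) ↔ Mem p D := by
  unfold Mem sc pt
  have h1 : (x₀ + lam * p.1 - (x₀ + lam * D.1)) ^ 2 + (lam * p.2 - lam * D.2.1) ^ 2
      = lam ^ 2 * ((p.1 - D.1) ^ 2 + (p.2 - D.2.1) ^ 2) := by ring
  have h2 : (lam * D.2.2) ^ 2 = lam ^ 2 * D.2.2 ^ 2 := by ring
  show (x₀ + lam * p.1 - (x₀ + lam * D.1)) ^ 2 + (lam * p.2 - lam * D.2.1) ^ 2
    ≤ (lam * D.2.2) ^ 2 ↔ _
  rw [h1, h2]
  exact mul_le_mul_iff_right₀ (by positivity)

lemma sc_inj (x₀ lam : ℝ) (hl : 0 < lam) : Function.Injective (sc x₀ lam) := by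
  intro D E h
  unfold sc at h
  rw [Prod.mk.injEq, Prod.mk.injEq] at h
  obtain ⟨h1, h2, h3⟩ := h
  have hl' := hl.ne'
  have e1 : D.1 = E.1 := mul_left_cancel₀ hl' (add_left_cancel h1)
  have e2 : D.2.1 = E.2.1 := mul_left_cancel₀ hl' h2
  have e3 : D.2.2 = E.2.2 := mul_left_cancel₀ hl' h3
  exact Prod.ext e1 (Prod.ext e2 e3)

lemma pt_surj (x₀ lam : ℝ) (hl : 0 < lam) (q : ℝ × ℝ) : ∃ p, pt x₀ lam p = q := by
  refine ⟨((q.1 - x₀) / lam, q.2 / lam), ?_⟩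
  unfold pt
  refine Prod.ext ?_ ?_
  · show x₀ + lam * ((q.1 - x₀) / lam) = q.1
    field_simp
    ring
  · show lam * (q.2 / lam) = q.2
    field_simp


/-- a point of a scaled disc lies in the window `|x - x₀| ≤ lam` -/
lemma xrange (x₀ lam : ℝ) (hl : 0 < lam) (D : Disc) (h0 : 0 < D.2.2) (h1 : |D.1| + D.2.2 ≤ 1)
    (q : ℝ × ℝ) (hq : Mem q (sc x₀ lam D)) : |q.1 - x₀| ≤ lam := by
  unfold Mem sc at hq
  simp only at hq
  have h2 : (q.1 - (x₀ + lam * D.1)) ^ 2 ≤ (lam * D.2.2) ^ 2 := by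
    nlinarith [sq_nonneg (q.2 - lam * D.2.1)]
  have h3 : |q.1 - (x₀ + lam * D.1)| ≤ lam * D.2.2 := abs_le_of_sq_le_sq h2 (by positivity)
  have h4 : q.1 - x₀ = (q.1 - (x₀ + lam * D.1)) + lam * D.1 := by ring
  rw [h4]
  refine (abs_add_le _ _).trans ?_
  rw [abs_mul, abs_of_pos hl]
  nlinarith


lemma ev1 (M γ : ℝ) (h : γ < M) :
    ∀ᶠ τ in 𝓝[>] (0 : ℝ), 0 < (M - γ) / 2 - τ ^ 2 * (M - γ) ^ 2 := by
  have h1 : ContinuousAt (fun τ : ℝ => (M - γ) / 2 - τ ^ 2 * (M - γ) ^ 2) 0 := by fun_prop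
  have h2 : (fun _ : ℝ => (0 : ℝ)) 0 < (fun τ : ℝ => (M - γ) / 2 - τ ^ 2 * (M - γ) ^ 2) 0 := by
    simp only
    norm_num
    linarith
  exact (continuousAt_const.eventually_lt h1 h2).filter_mono nhdsWithin_le_nhds


lemma ev2 (M γ s : ℝ) (hs : 0 < s) : ∀ᶠ τ in 𝓝[>] (0 : ℝ), X M γ τ + τ ^ 2 / s ≤ 1 := by
  have hc : Continuous (fun τ : ℝ => X M γ τ + τ ^ 2 / s) := by
    unfold X
    fun_prop
  have h0 : (fun τ : ℝ => X M γ τ + τ ^ 2 / s) 0 < 1 := by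
    simp [X]
  have h1 : ∀ᶠ τ in 𝓝 (0 : ℝ), X M γ τ + τ ^ 2 / s < 1 :=
    hc.continuousAt.eventually_lt continuousAt_const h0
  exact (h1.filter_mono nhdsWithin_le_nhds).mono fun τ h => h.le

lemma ev5 (s : ℝ) (hs : 0 < s) : ∀ᶠ τ in 𝓝[>] (0 : ℝ), τ ^ 2 / s < 1 / 4 := by
  have hc : Continuous (fun τ : ℝ => τ ^ 2 / s) := by fun_prop
  have h0 : (fun τ : ℝ => τ ^ 2 / s) 0 < 1 / 4 := by
    norm_num
  have h1 : ∀ᶠ τ in 𝓝 (0 : ℝ), τ ^ 2 / s < 1 / 4 :=
    hc.continuousAt.eventually_lt continuousAt_const h0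
  exact h1.filter_mono nhdsWithin_le_nhds


lemma ev3 (M γ s : ℝ) (h : γ < M) (hs : 0 < s) (p : ℝ × ℝ) (hp : p.2 ≠ s * γ) :
    ∀ᶠ τ in 𝓝[>] (0 : ℝ),
      (Mem (pt (X M γ τ) (τ ^ 2 / s) p) (newDisc M τ) ↔ p.2 < s * γ) := by
  obtain ⟨a, b⟩ := p
  set Φ : ℝ → ℝ := fun τ => (1 / 2) * (b / s - γ)
      + 2 * τ * Real.sqrt ((M - γ) / 2 - τ ^ 2 * (M - γ) ^ 2) * a / s
      + τ ^ 2 * (-(M - γ) ^ 2 + a ^ 2 / s ^ 2 + (b / s - M) ^ 2) with hΦ
  have hcont : Continuous Φ := by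
    rw [hΦ]; fun_prop
  have h0 : Φ 0 = (1 / 2) * (b / s - γ) := by simp [hΦ]
  have hlim : Tendsto Φ (𝓝[>] (0 : ℝ)) (𝓝 ((1 / 2) * (b / s - γ))) := by
    have := hcont.tendsto 0
    rw [h0] at this
    exact this.mono_left nhdsWithin_le_nhds
  have key : ∀ᶠ τ in 𝓝[>] (0 : ℝ),
      (Mem (pt (X M γ τ) (τ ^ 2 / s) (a, b)) (newDisc M τ) ↔ Φ τ ≤ 0) := by
    filter_upwards [ev1 M γ h, self_mem_nhdsWithin] with τ h1 hτ
    have hτ' : 0 < τ := hτ
    have hsq : Real.sqrt ((M - γ) / 2 - τ ^ 2 * (M - γ) ^ 2) ^ 2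
        = (M - γ) / 2 - τ ^ 2 * (M - γ) ^ 2 := Real.sq_sqrt h1.le
    unfold Mem pt newDisc X
    simp only [hΦ]
    generalize Real.sqrt ((M - γ) / 2 - τ ^ 2 * (M - γ) ^ 2) = ξ at hsq
    have hid : (τ * ξ + τ ^ 2 / s * a - 0) ^ 2 + (τ ^ 2 / s * b - (τ ^ 2 * M - 1 / 4)) ^ 2
        - (1 / 4) ^ 2 = τ ^ 2 * ((1 / 2) * (b / s - γ) + 2 * τ * ξ * a / s
          + τ ^ 2 * (-(M - γ) ^ 2 + a ^ 2 / s ^ 2 + (b / s - M) ^ 2)) := by
      have : (τ * ξ + τ ^ 2 / s * a - 0) ^ 2 = τ ^ 2 * ξ ^ 2 + 2 * τ * ξ * (τ ^ 2 / s * a)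
        + (τ ^ 2 / s * a) ^ 2 := by ring
      rw [this, hsq]
      field_simp
      ring
    have hpos : 0 < τ ^ 2 := by positivity
    constructor
    · intro hm
      by_contra hc
      push Not at hc
      have := mul_pos hpos hc
      linarith
    · intro hm
      have := mul_nonpos_of_nonneg_of_nonpos hpos.le hm
      linarith
  rcases lt_or_gt_of_ne hp with hlt | hgt
  · have hneg : (1 / 2) * (b / s - γ) < 0 := by
      have : b / s < γ := by rw [div_lt_iff₀ hs]; linarith [mul_comm s γ]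
      linarith
    filter_upwards [key, hlim.eventually (gt_mem_nhds hneg)] with τ h1 h2
    rw [h1]
    exact ⟨fun _ => hlt, fun _ => h2.le⟩
  · have hpos : 0 < (1 / 2) * (b / s - γ) := by
      have : γ < b / s := by rw [lt_div_iff₀ hs]; linarith [mul_comm s γ]
      linarith
    filter_upwards [key, hlim.eventually (lt_mem_nhds hpos)] with τ h1 h2
    rw [h1]
    exact ⟨fun h => absurd h2 (not_lt.2 h), fun h => absurd h (not_lt.2 (le_of_lt hgt))⟩


lemma ev4 (M γ γ' s s' : ℝ) (h : γ < M) (h' : γ' < M) (hne : γ ≠ γ') (hs : 0 < s) (hs' : 0 < s') :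
    ∀ᶠ τ in 𝓝[>] (0 : ℝ), τ ^ 2 / s + τ ^ 2 / s' < |X M γ τ - X M γ' τ| := by
  let F : ℝ → ℝ := fun τ => |Real.sqrt ((M - γ) / 2 - τ ^ 2 * (M - γ) ^ 2)
    - Real.sqrt ((M - γ') / 2 - τ ^ 2 * (M - γ') ^ 2)| - (τ / s + τ / s')
  have hF : Continuous F := by
    have c1 : Continuous (fun τ : ℝ => Real.sqrt ((M - γ) / 2 - τ ^ 2 * (M - γ) ^ 2)) :=
      Real.continuous_sqrt.comp (by fun_prop)
    have c2 : Continuous (fun τ : ℝ => Real.sqrt ((M - γ') / 2 - τ ^ 2 * (M - γ') ^ 2)) :=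
      Real.continuous_sqrt.comp (by fun_prop)
    exact ((c1.sub c2).abs).sub ((continuous_id.div_const s).add (continuous_id.div_const s'))
  have h0 : 0 < F 0 := by
    have e : F 0 = |Real.sqrt ((M - γ) / 2) - Real.sqrt ((M - γ') / 2)| := by
      simp only [F]
      norm_num
    rw [e, abs_pos, sub_ne_zero]
    intro heq
    have h1 : (M - γ) / 2 = (M - γ') / 2 := by
      rw [← Real.sq_sqrt (show 0 ≤ (M - γ) / 2 by linarith),
        ← Real.sq_sqrt (show 0 ≤ (M - γ') / 2 by linarith), heq]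
    exact hne (by linarith)
  have h1 : ∀ᶠ τ in 𝓝 (0 : ℝ), 0 < F τ :=
    hF.continuousAt.eventually (eventually_gt_nhds h0)
  have h2 : ∀ᶠ τ in 𝓝[>] (0 : ℝ), 0 < F τ := h1.filter_mono nhdsWithin_le_nhds
  filter_upwards [h2, self_mem_nhdsWithin] with τ hτ hpos
  have hpos' : 0 < τ := hpos
  have e : |X M γ τ - X M γ' τ| = τ * |Real.sqrt ((M - γ) / 2 - τ ^ 2 * (M - γ) ^ 2)
    - Real.sqrt ((M - γ') / 2 - τ ^ 2 * (M - γ') ^ 2)| := by
    unfold X
    rw [← mul_sub, abs_mul, abs_of_pos hpos']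
  rw [e]
  have h3 : τ / s + τ / s' < |Real.sqrt ((M - γ) / 2 - τ ^ 2 * (M - γ) ^ 2)
    - Real.sqrt ((M - γ') / 2 - τ ^ 2 * (M - γ') ^ 2)| := by
    have := hτ
    simp only [F] at this
    linarith
  have h4 := mul_lt_mul_of_pos_left h3 hpos'
  calc τ ^ 2 / s + τ ^ 2 / s' = τ * (τ / s + τ / s') := by ring
    _ < _ := h4


/-- a good small parameter -/
lemma choose_tau (M : ℝ) (S : Finset ℝ) (hS : ∀ γ ∈ S, γ < M) (σ : ℝ → ℝ)
    (hσ : ∀ γ ∈ S, 0 < σ γ) (P : ℝ → Finset (ℝ × ℝ))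
    (hP : ∀ γ ∈ S, ∀ p ∈ P γ, p.2 ≠ σ γ * γ) :
    ∃ τ : ℝ, 0 < τ ∧ (∀ γ ∈ S, X M γ τ + τ ^ 2 / σ γ ≤ 1) ∧ (∀ γ ∈ S, τ ^ 2 / σ γ < 1 / 4) ∧
      (∀ γ ∈ S, ∀ p ∈ P γ,
        (Mem (pt (X M γ τ) (τ ^ 2 / σ γ) p) (newDisc M τ) ↔ p.2 < σ γ * γ)) ∧
      (∀ γ ∈ S, ∀ γ' ∈ S, γ ≠ γ' →
        τ ^ 2 / σ γ + τ ^ 2 / σ γ' < |X M γ τ - X M γ' τ|) := by
  have h0 : ∀ᶠ τ in 𝓝[>] (0 : ℝ), 0 < τ := self_mem_nhdsWithin
  have h1 : ∀ᶠ τ in 𝓝[>] (0 : ℝ), ∀ γ ∈ S, X M γ τ + τ ^ 2 / σ γ ≤ 1 :=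
    (Filter.eventually_all_finset S).2 (fun γ hγ => ev2 M γ (σ γ) (hσ γ hγ))
  have h2 : ∀ᶠ τ in 𝓝[>] (0 : ℝ), ∀ γ ∈ S, τ ^ 2 / σ γ < 1 / 4 :=
    (Filter.eventually_all_finset S).2 (fun γ hγ => ev5 (σ γ) (hσ γ hγ))
  have h3 : ∀ᶠ τ in 𝓝[>] (0 : ℝ), ∀ γ ∈ S, ∀ p ∈ P γ,
        (Mem (pt (X M γ τ) (τ ^ 2 / σ γ) p) (newDisc M τ) ↔ p.2 < σ γ * γ) :=
    (Filter.eventually_all_finset S).2 (fun γ hγ =>
      (Filter.eventually_all_finset (P γ)).2 (fun p hp =>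
        ev3 M γ (σ γ) (hS γ hγ) (hσ γ hγ) p (hP γ hγ p hp)))
  have h4 : ∀ᶠ τ in 𝓝[>] (0 : ℝ), ∀ γ ∈ S, ∀ γ' ∈ S, γ ≠ γ' →
        τ ^ 2 / σ γ + τ ^ 2 / σ γ' < |X M γ τ - X M γ' τ| := by
    refine (Filter.eventually_all_finset S).2 (fun γ hγ =>
      (Filter.eventually_all_finset S).2 (fun γ' hγ' => ?_))
    by_cases hne : γ = γ'
    · exact Filter.Eventually.of_forall (fun τ h => absurd hne h)
    · filter_upwards [ev4 M γ γ' (σ γ) (σ γ') (hS γ hγ) (hS γ' hγ') hne (hσ γ hγ) (hσ γ' hγ')]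
        with τ h _
      exact h
  obtain ⟨τ, h0, h1, h2, h3, h4⟩ := (h0.and (h1.and (h2.and (h3.and h4)))).exists
  exact ⟨τ, h0, h1, h2, h3, h4⟩


/-- ply of the new family -/
lemma ply_step (v : Disc) (S : Finset ℝ) (F : ℝ → Finset Disc) (x lam : ℝ → ℝ) (n : ℕ)
    (hlam : ∀ γ ∈ S, 0 < lam γ)
    (hbox : ∀ γ ∈ S, ∀ D ∈ F γ, 0 < D.2.2 ∧ |D.1| + D.2.2 ≤ 1)
    (hsep : ∀ γ ∈ S, ∀ γ' ∈ S, γ ≠ γ' → lam γ + lam γ' < |x γ - x γ'|)
    (hply : ∀ γ ∈ S, PlyLE (F γ) n) :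
    PlyLE (insert v (S.biUnion fun γ => (F γ).image (sc (x γ) (lam γ)))) (n + 1) := by
  intro q
  have h1 : ∀ B : Finset Disc, ((insert v B).filter (fun D => Mem q D)).card ≤
      (B.filter (fun D => Mem q D)).card + 1 := by
    intro B
    rw [Finset.filter_insert]
    split_ifs with h
    · exact Finset.card_insert_le _ _
    · omega
  refine (h1 _).trans ?_
  refine Nat.succ_le_succ ?_
  by_cases hex : ∃ γ0 ∈ S, ∃ D0 ∈ F γ0, Mem q (sc (x γ0) (lam γ0) D0)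
  · obtain ⟨γ0, hγ0, D0, hD0, hm0⟩ := hex
    obtain ⟨p, hp⟩ := pt_surj (x γ0) (lam γ0) (hlam γ0 hγ0) q
    have hsub : ((S.biUnion fun γ => (F γ).image (sc (x γ) (lam γ))).filter
        (fun D => Mem q D)) ⊆
        ((F γ0).filter (fun D => Mem p D)).image (sc (x γ0) (lam γ0)) := by
      intro E hE
      rw [Finset.mem_filter, Finset.mem_biUnion] at hE
      obtain ⟨⟨γ, hγ, hE1⟩, hE2⟩ := hE
      rw [Finset.mem_image] at hE1
      obtain ⟨D, hD, rfl⟩ := hE1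
      have hγγ : γ = γ0 := by
        by_contra hne
        have h3 := hsep γ hγ γ0 hγ0 hne
        have h4 := xrange (x γ) (lam γ) (hlam γ hγ) D (hbox γ hγ D hD).1 (hbox γ hγ D hD).2 q hE2
        have h5 := xrange (x γ0) (lam γ0) (hlam γ0 hγ0) D0 (hbox γ0 hγ0 D0 hD0).1
          (hbox γ0 hγ0 D0 hD0).2 q hm0
        have h6 : |x γ - x γ0| ≤ lam γ + lam γ0 := by
          rw [abs_le] at h4 h5 ⊢
          constructor <;> linarith [h4.1, h4.2, h5.1, h5.2]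
        linarith
      subst hγγ
      rw [Finset.mem_image]
      refine ⟨D, ?_, rfl⟩
      rw [Finset.mem_filter]
      refine ⟨hD, ?_⟩
      rw [← hp] at hE2
      exact (mem_sc (x γ) (lam γ) (hlam γ hγ) p D).1 hE2
    exact (Finset.card_le_card hsub).trans (Finset.card_image_le.trans (hply γ0 hγ0 p))
  · have h0 : ((S.biUnion fun γ => (F γ).image (sc (x γ) (lam γ))).filter
        (fun D => Mem q D)) = ∅ := by
      rw [Finset.filter_eq_empty_iff]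
      intro E hE hm
      rw [Finset.mem_biUnion] at hE
      obtain ⟨γ, hγ, hE1⟩ := hE
      rw [Finset.mem_image] at hE1
      obtain ⟨D, hD, rfl⟩ := hE1
      exact hex ⟨γ, hγ, D, hD, hm⟩
    have h7 : ((S.biUnion fun γ => (F γ).image (sc (x γ) (lam γ))).filter
        (fun D => Mem q D)).card = 0 := by
      rw [h0]; rfl
    exact h7.le.trans (Nat.zero_le n)


/-- a violation in a small gadget is a violation in the big one -/
lemma viol_transfer {κ : Type} (σ s γ : ℝ) (G : Finset ℝ) (hγ : γ ∉ G) (c : ℝ → κ)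
    (F F' : Finset Disc) (χ : Disc → κ) (v : Disc) (hvF : v ∈ F) (φ : Disc → Disc)
    (hφ : Function.Injective φ) (hφF : ∀ D ∈ F', φ D ∈ F) (hvφ : ∀ D ∈ F', φ D ≠ v)
    (p p' : ℝ × ℝ) (hG : ∀ g ∈ G, (p.2 < σ * g ↔ p'.2 < s * g))
    (hv : Mem p v ↔ p'.2 < s * γ) (hm : ∀ D ∈ F', (Mem p (φ D) ↔ Mem p' D))
    (hF : ∀ D ∈ F, Mem p D → D = v ∨ ∃ D' ∈ F', D = φ D')
    (h : Viol s (insert γ G) (Function.update c γ (χ v)) F' (fun D => χ (φ D)) p') :
    Viol σ G c F χ p := by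
  obtain ⟨h1, h2, h3⟩ := h
  have hcγ : Function.update c γ (χ v) γ = χ v := Function.update_self _ _ _
  have hcg : ∀ g ∈ G, Function.update c γ (χ v) g = c g := fun g hg =>
    Function.update_of_ne (by rintro rfl; exact hγ hg) _ _
  refine ⟨?_, ?_, ?_⟩
  · rcases h1 with ⟨g, hg, hlt⟩ | ⟨D, hD, hm'⟩
    · rcases Finset.mem_insert.1 hg with rfl | hg
      · exact Or.inr ⟨v, hvF, hv.2 hlt⟩
      · exact Or.inl ⟨g, hg, (hG g hg).2 hlt⟩
    · exact Or.inr ⟨φ D, hφF D hD, (hm D hD).2 hm'⟩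
  · intro g hg hlt
    have hlt' := (hG g hg).1 hlt
    rcases h2 g (Finset.mem_insert_of_mem hg) hlt' with ⟨g', hg', hlt2, hne, hc⟩ | ⟨D, hD, hmD, hc⟩
    · rw [hcg g hg] at hc
      rcases Finset.mem_insert.1 hg' with rfl | hg'
      · rw [hcγ] at hc
        exact Or.inr ⟨v, hvF, hv.2 hlt2, hc⟩
      · rw [hcg g' hg'] at hc
        exact Or.inl ⟨g', hg', (hG g' hg').2 hlt2, hne, hc⟩
    · rw [hcg g hg] at hc
      exact Or.inr ⟨φ D, hφF D hD, (hm D hD).2 hmD, hc⟩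
  · intro D hD hmD
    rcases hF D hD hmD with rfl | ⟨D', hD', rfl⟩
    · rcases h2 γ (Finset.mem_insert_self _ _) (hv.1 hmD) with
        ⟨g', hg', hlt2, hne, hc⟩ | ⟨D', hD', hmD', hc⟩
      · rw [hcγ] at hc
        rcases Finset.mem_insert.1 hg' with rfl | hg'
        · exact absurd rfl hne
        · rw [hcg g' hg'] at hc
          exact Or.inl ⟨g', hg', (hG g' hg').2 hlt2, hc⟩
      · rw [hcγ] at hc
        exact Or.inr ⟨φ D', hφF D' hD', (hm D' hD').2 hmD', hvφ D' hD', hc⟩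
    · rcases h3 D' hD' ((hm D' hD').1 hmD) with ⟨g, hg, hlt, hc⟩ | ⟨D'', hD'', hmD'', hne, hc⟩
      · rcases Finset.mem_insert.1 hg with rfl | hg
        · rw [hcγ] at hc
          exact Or.inr ⟨v, hvF, hv.2 hlt, (hvφ D' hD').symm, hc⟩
        · rw [hcg g hg] at hc
          exact Or.inl ⟨g, hg, (hG g hg).2 hlt, hc⟩
      · exact Or.inr ⟨φ D'', hφF D'' hD'', (hm D'' hD'').2 hmD'', fun e => hne (hφ e), hc⟩


lemma gad_nil_eps (G : Finset ℝ) : ∃ ε : ℝ, 0 < ε ∧ ∀ g ∈ G, ∀ g' ∈ G, g' < g → g' < g - ε := by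
  have h : ∀ᶠ ε in 𝓝[>] (0:ℝ), ∀ g ∈ G, ∀ g' ∈ G, g' < g → g' < g - ε := by
    rw [Filter.eventually_all_finset]
    intro g hg
    rw [Filter.eventually_all_finset]
    intro g' hg'
    by_cases h : g' < g
    · filter_upwards [Ioo_mem_nhdsGT (sub_pos.mpr h)] with ε hε _
      linarith [hε.2]
    · exact Eventually.of_forall (fun ε h2 => absurd h2 h)
  have h2 : ∀ᶠ ε in 𝓝[>] (0:ℝ), ε ∈ Set.Ioi (0:ℝ) := self_mem_nhdsWithin
  obtain ⟨ε, h3, h4⟩ := (h.and h2).exists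
  exact ⟨ε, h4, h3⟩

lemma gad_nil (κ : Type) (G : Finset ℝ) : ∃ (σ : ℝ) (F : Finset Disc) (P : Finset (ℝ × ℝ)),
    Gad κ [] G σ F P := by
  obtain ⟨ε, hε, hG⟩ := gad_nil_eps G
  refine ⟨1, ∅, G.image (fun g => ((0:ℝ), g - ε)), ?_, ?_, ?_, ?_, ?_⟩
  · exact one_pos
  · intro D hD
    exact absurd hD (Finset.notMem_empty D)
  · intro p hp
    rw [Finset.mem_image] at hp
    obtain ⟨g, hg, rfl⟩ := hp
    refine ⟨by simp, ?_⟩
    intro g' hg' h
    simp only [one_mul] at h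
    have := hG g hg g' hg' (by linarith)
    linarith
  · intro p
    simp
  · intro χ c hF
    have hB : Bad G c := hF
    obtain ⟨g0, hg0, hb⟩ := hB
    refine ⟨(0, g0 - ε), ?_, ?_, ?_, ?_⟩
    · rw [Finset.mem_image]
      exact ⟨g0, hg0, rfl⟩
    · left
      exact ⟨g0, hg0, by simp only [one_mul]; linarith⟩
    · intro g hg hlt
      simp only [one_mul] at hlt
      have hge : g0 ≤ g := by
        by_contra hcon
        push Not at hcon
        have := hG g0 hg0 g hg hcon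
        linarith
      obtain ⟨g', hg', h1, h2, h3⟩ := hb g hg hge
      left
      exact ⟨g', hg', by simp only [one_mul]; linarith, h2, h3⟩
    · intro D hD
      exact absurd hD (Finset.notMem_empty D)


lemma gad_cons (κ : Type) (B : Finset ℝ) (L : List (Finset ℝ)) (G : Finset ℝ)
    (ih : ∀ G' : Finset ℝ, ∃ (σ : ℝ) (F : Finset Disc) (P : Finset (ℝ × ℝ)), Gad κ L G' σ F P) :
    ∃ (σ : ℝ) (F : Finset Disc) (P : Finset (ℝ × ℝ)), Gad κ (B :: L) G σ F P := by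
  choose σf Ff Pf hf using fun γ : ℝ => ih (insert γ G)
  obtain ⟨S, hS⟩ : ∃ S : Finset ℝ, S = B.filter (fun γ => γ ∉ G) := ⟨_, rfl⟩
  obtain ⟨M, hM⟩ : ∃ M : ℝ, ∀ γ ∈ S, γ < M := by
    refine ⟨∑ γ ∈ S, |γ| + 1, fun γ hγ => ?_⟩
    have h1 : |γ| ≤ ∑ γ ∈ S, |γ| :=
      Finset.single_le_sum (f := fun γ : ℝ => |γ|) (fun i _ => abs_nonneg i) hγ
    have h2 := le_abs_self γ
    linarith
  obtain ⟨τ, hτ, h1, h2, h3, h4⟩ := choose_tau M S hM σf (fun γ _ => (hf γ).σpos) Pf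
    (fun γ _ p hp => ((hf γ).pts p hp).2 γ (Finset.mem_insert_self γ G))
  have hlam : ∀ γ, 0 < τ ^ 2 / σf γ := fun γ => div_pos (by positivity) (hf γ).σpos
  have hx : ∀ γ, 0 ≤ X M γ τ := fun γ => mul_nonneg hτ.le (Real.sqrt_nonneg _)
  refine ⟨τ ^ 2, insert (newDisc M τ)
    (S.biUnion fun γ => (Ff γ).image (sc (X M γ τ) (τ ^ 2 / σf γ))),
    S.biUnion fun γ => (Pf γ).image (pt (X M γ τ) (τ ^ 2 / σf γ)), ?_⟩
  constructor
  · positivity
  · intro D hD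
    rw [Finset.mem_insert] at hD
    rcases hD with rfl | hD
    · constructor
      · show (0:ℝ) < 1 / 4
        norm_num
      · show |(0:ℝ)| + 1 / 4 ≤ 1
        rw [abs_zero]; norm_num
    · rw [Finset.mem_biUnion] at hD
      obtain ⟨γ, hγ, hD⟩ := hD
      rw [Finset.mem_image] at hD
      obtain ⟨D', hD', rfl⟩ := hD
      have hb := (hf γ).box D' hD'
      have hl := hlam γ
      constructor
      · exact mul_pos hl hb.1
      · show |X M γ τ + τ ^ 2 / σf γ * D'.1| + τ ^ 2 / σf γ * D'.2.2 ≤ 1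
        have h7 := abs_add_le (X M γ τ) (τ ^ 2 / σf γ * D'.1)
        rw [abs_of_nonneg (hx γ), abs_mul, abs_of_pos hl] at h7
        have h5 := mul_le_mul_of_nonneg_left hb.2 hl.le
        rw [mul_add] at h5
        have h6 := h1 γ hγ
        linarith
  · intro p hp
    rw [Finset.mem_biUnion] at hp
    obtain ⟨γ, hγ, hp⟩ := hp
    rw [Finset.mem_image] at hp
    obtain ⟨p', hp', rfl⟩ := hp
    have hb := (hf γ).pts p' hp'
    have hl := hlam γ
    constructor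
    · show |X M γ τ + τ ^ 2 / σf γ * p'.1| ≤ 1
      have h7 := abs_add_le (X M γ τ) (τ ^ 2 / σf γ * p'.1)
      rw [abs_of_nonneg (hx γ), abs_mul, abs_of_pos hl] at h7
      have h5 := mul_le_mul_of_nonneg_left hb.1 hl.le
      have h6 := h1 γ hγ
      linarith
    · intro g hg
      show τ ^ 2 / σf γ * p'.2 ≠ τ ^ 2 * g
      intro h
      apply hb.2 g (Finset.mem_insert_of_mem hg)
      have hs := (hf γ).σpos
      have hs' : σf γ ≠ 0 := hs.ne'
      have ht : τ ^ 2 ≠ 0 := by positivity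
      have h8 : τ ^ 2 * p'.2 = τ ^ 2 * (σf γ * g) := by
        have h9 : τ ^ 2 / σf γ * p'.2 * σf γ = τ ^ 2 * g * σf γ := by rw [h]
        have h10 : τ ^ 2 / σf γ * p'.2 * σf γ = τ ^ 2 * p'.2 := by
          field_simp
        rw [h10] at h9
        rw [h9]; ring
      exact mul_left_cancel₀ ht h8
  · exact ply_step _ S Ff (fun γ => X M γ τ) (fun γ => τ ^ 2 / σf γ) L.length
      (fun γ _ => hlam γ) (fun γ _ => (hf γ).box) h4 (fun γ _ => (hf γ).ply)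
  · intro χ c hforce
    obtain ⟨γ, hγB, hγG, hF⟩ := hforce (χ (newDisc M τ))
    have hγS : γ ∈ S := by rw [hS]; exact Finset.mem_filter.2 ⟨hγB, hγG⟩
    obtain ⟨p', hp', hv⟩ := (hf γ).win (fun D => χ (sc (X M γ τ) (τ ^ 2 / σf γ) D))
      (Function.update c γ (χ (newDisc M τ))) hF
    refine ⟨pt (X M γ τ) (τ ^ 2 / σf γ) p', ?_, ?_⟩
    · exact Finset.mem_biUnion.2 ⟨γ, hγS, Finset.mem_image_of_mem _ hp'⟩
    · refine viol_transfer (τ ^ 2) (σf γ) γ G hγG c _ (Ff γ) χ (newDisc M τ)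
        (Finset.mem_insert_self _ _) (sc (X M γ τ) (τ ^ 2 / σf γ)) (sc_inj _ _ (hlam γ)) ?_ ?_
        (pt (X M γ τ) (τ ^ 2 / σf γ) p') p' ?_ (h3 γ hγS p' hp')
        (fun D _ => mem_sc _ _ (hlam γ) _ _) ?_ hv
      · intro D hD
        exact Finset.mem_insert_of_mem
          (Finset.mem_biUnion.2 ⟨γ, hγS, Finset.mem_image_of_mem _ hD⟩)
      · intro D hD h
        have hb := (hf γ).box D hD
        have hr : τ ^ 2 / σf γ * D.2.2 = 1 / 4 := congrArg (fun D : Disc => D.2.2) h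
        have h5 : D.2.2 ≤ 1 := by
          have := abs_nonneg D.1
          linarith [hb.2]
        have h6 := h2 γ hγS
        have h7 : τ ^ 2 / σf γ * D.2.2 ≤ τ ^ 2 / σf γ * 1 :=
          mul_le_mul_of_nonneg_left h5 (hlam γ).le
        linarith
      · intro g _
        show τ ^ 2 / σf γ * p'.2 < τ ^ 2 * g ↔ p'.2 < σf γ * g
        have hs := (hf γ).σpos
        have ht : 0 < τ ^ 2 := by positivity
        have e1 : τ ^ 2 * g = τ ^ 2 / σf γ * (σf γ * g) := by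
          field_simp
        rw [e1]
        exact mul_lt_mul_iff_right₀ (hlam γ)
      · intro D hD hm
        rw [Finset.mem_insert] at hD
        rcases hD with rfl | hD
        · exact Or.inl rfl
        · right
          rw [Finset.mem_biUnion] at hD
          obtain ⟨γ', hγ', hD⟩ := hD
          rw [Finset.mem_image] at hD
          obtain ⟨D', hD', rfl⟩ := hD
          by_cases hgg : γ = γ'
          · subst hgg
            exact ⟨D', hD', rfl⟩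
          · exfalso
            have hb := (hf γ').box D' hD'
            have ha := xrange (X M γ' τ) (τ ^ 2 / σf γ') (hlam γ') D' hb.1 hb.2 _ hm
            have hsep := h4 γ hγS γ' hγ' hgg
            have hp1 := ((hf γ).pts p' hp').1
            have hq : (pt (X M γ τ) (τ ^ 2 / σf γ) p').1 = X M γ τ + τ ^ 2 / σf γ * p'.1 := rfl
            rw [hq] at ha
            have h7 : |τ ^ 2 / σf γ * p'.1| ≤ τ ^ 2 / σf γ := by
              rw [abs_mul, abs_of_pos (hlam γ)]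
              have := mul_le_mul_of_nonneg_left hp1 (hlam γ).le
              linarith
            have h8 : X M γ τ - X M γ' τ = (X M γ τ + τ ^ 2 / σf γ * p'.1 - X M γ' τ)
              - τ ^ 2 / σf γ * p'.1 := by ring
            have h9 := abs_sub (X M γ τ + τ ^ 2 / σf γ * p'.1 - X M γ' τ) (τ ^ 2 / σf γ * p'.1)
            rw [← h8] at h9
            linarith


lemma gad_all (κ : Type) (L : List (Finset ℝ)) : ∀ G : Finset ℝ,
    ∃ (σ : ℝ) (F : Finset Disc) (P : Finset (ℝ × ℝ)), Gad κ L G σ F P := by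
  induction L with
  | nil => exact gad_nil κ
  | cons B L ih => exact fun G => gad_cons κ B L G ih


lemma lv_mono (N : ℝ) (hN : 0 < N) (g g' : ℝ) (h : g ≤ g') : lv N g ≤ lv N g' :=
  Nat.floor_le_floor (div_le_div_of_nonneg_right h hN.le)

lemma lv_eq (N : ℝ) (hN : 0 < N) (l : ℕ) (s : ℝ) (hs : 0 ≤ s) (hsN : s < N) :
    lv N (l * N + s) = l := by
  unfold lv
  have h1 : ((l : ℝ) * N + s) / N = l + s / N := by
    field_simp
  have h2 : 0 ≤ s / N := div_nonneg hs hN.le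
  have h3 : s / N < 1 := (div_lt_one hN).2 hsN
  rw [h1, Nat.floor_eq_iff (by positivity)]
  constructor <;> linarith


lemma hx_top (N : ℝ) (k : ℕ) (G : Finset ℝ) (c : ℝ → Fin k) (h : Inv N G c)
    (hk : k ^ 2 < G.card) : ∃ g ∈ G, k + 1 ≤ lv N g := by
  obtain ⟨a, _, ha⟩ := Finset.exists_lt_card_fiber_of_mul_lt_card_of_maps_to
    (s := G) (t := (Finset.univ : Finset (Fin k))) (f := c) (n := k)
    (fun x _ => Finset.mem_univ _) (by rw [Finset.card_univ, Fintype.card_fin, ← pow_two]; exact hk)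
  by_contra hcon
  push Not at hcon
  have hinj : Set.InjOn (lv N) ((G.filter (fun x => c x = a) : Finset ℝ) : Set ℝ) := by
    intro x hx y hy hxy
    have hx' := Finset.mem_filter.mp (Finset.mem_coe.mp hx)
    have hy' := Finset.mem_filter.mp (Finset.mem_coe.mp hy)
    exact h.inj x hx'.1 y hy'.1 (hx'.2.trans hy'.2.symm) hxy
  have hcard := Finset.card_image_of_injOn hinj
  have hsub : (G.filter (fun x => c x = a)).image (lv N) ⊆ Finset.Icc 1 k := by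
    intro v hv
    obtain ⟨g, hg, rfl⟩ := Finset.mem_image.mp hv
    have hg' := Finset.mem_filter.mp hg
    have h1 := h.pos g hg'.1
    have h2 := hcon g hg'.1
    rw [Finset.mem_Icc]
    omega
  have h3 := Finset.card_le_card hsub
  rw [hcard, Nat.card_Icc] at h3
  omega

lemma hx_step (N : ℝ) (hN : 0 < N) (k : ℕ) (G : Finset ℝ) (c : ℝ → Fin k) (h : Inv N G c)
    (hnot : ∀ g₀ ∈ G, ∃ g ∈ G, g₀ ≤ g ∧ ∀ g' ∈ G, g₀ ≤ g' → g' ≠ g → c g' ≠ c g)
    (l : ℕ) (hl : 1 ≤ l) (gt : ℝ) (hgt : gt ∈ G) (hlt : l ≤ lv N gt) :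
    ∃ g ∈ G, lv N g = l ∧ ∀ g' ∈ G, c g' = c g → lv N g' ≤ l := by
  have hne : (G.filter (fun g => l ≤ lv N g)).Nonempty :=
    ⟨gt, Finset.mem_filter.mpr ⟨hgt, hlt⟩⟩
  have hmin := Finset.min'_mem _ hne
  have hmin' := Finset.mem_filter.mp hmin
  have hle : ∀ g' ∈ G, l ≤ lv N g' → (G.filter (fun g => l ≤ lv N g)).min' hne ≤ g' :=
    fun g' hg' hlg => Finset.min'_le _ _ (Finset.mem_filter.mpr ⟨hg', hlg⟩)
  obtain ⟨g, hg, hg0, huniq⟩ := hnot _ hmin'.1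
  have h1 : l ≤ lv N g := hmin'.2.trans (lv_mono N hN _ _ hg0)
  have h2 : lv N g = l := by
    by_contra hne2
    obtain ⟨g'', hg'', hc, hlv⟩ := h.down g hg l hl h1
    refine huniq g'' hg'' (hle g'' hg'' (le_of_eq hlv.symm)) ?_ hc
    intro he
    rw [he] at hlv
    exact hne2 hlv
  refine ⟨g, hg, h2, ?_⟩
  intro g' hg' hc
  by_contra hlt2
  push Not at hlt2
  refine huniq g' hg' (hle g' hg' (le_of_lt hlt2)) ?_ hc
  intro he
  rw [he, h2] at hlt2
  exact lt_irrefl _ hlt2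

lemma bad_of_inv (N : ℝ) (hN : 0 < N) (k : ℕ) (G : Finset ℝ) (c : ℝ → Fin k) (h : Inv N G c)
    (hk : k ^ 2 < G.card) : Bad G c := by
  by_contra hbad
  have hnot : ∀ g₀ ∈ G, ∃ g ∈ G, g₀ ≤ g ∧ ∀ g' ∈ G, g₀ ≤ g' → g' ≠ g → c g' ≠ c g := by
    intro g₀ hg₀
    by_contra hcon
    apply hbad
    refine ⟨g₀, hg₀, ?_⟩
    intro g hg hle
    by_contra hcon2
    apply hcon
    refine ⟨g, hg, hle, ?_⟩
    intro g' hg' hle' hne hc
    exact hcon2 ⟨g', hg', hle', hne, hc⟩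
  obtain ⟨gt, hgt, hlt⟩ := hx_top N k G c h hk
  have hex : ∀ i : Fin (k + 1), ∃ g ∈ G, lv N g = i.val + 1 ∧
      ∀ g' ∈ G, c g' = c g → lv N g' ≤ i.val + 1 := by
    intro i
    exact hx_step N hN k G c h hnot (i.val + 1) (by omega) gt hgt (by omega)
  choose F hF hlv hmax using hex
  have hinj : Function.Injective (fun i => c (F i)) := by
    intro i j hij
    have h1 := hmax i (F j) (hF j) hij.symm
    have h2 := hmax j (F i) (hF i) hij
    rw [hlv j] at h1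
    rw [hlv i] at h2
    apply Fin.ext
    omega
  have := Fintype.card_le_of_injective _ hinj
  rw [Fintype.card_fin, Fintype.card_fin] at this
  omega


lemma inv_step {κ : Type} (N : ℝ) (G : Finset ℝ) (c : ℝ → κ) (h : Inv N G c) (col : κ) (γ : ℝ)
    (hγ : γ ∉ G) (hl : lv N γ = (G.filter (fun g => c g = col)).card + 1) :
    Inv N (insert γ G) (Function.update c γ col) := by
  set E := G.filter (fun g => c g = col) with hE
  have hmem : ∀ g, g ∈ E ↔ g ∈ G ∧ c g = col := fun g => by rw [hE, Finset.mem_filter]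
  have hinj : Set.InjOn (lv N) (E : Set ℝ) := by
    intro g hg g' hg' he
    rw [Finset.mem_coe, hmem] at hg hg'
    exact h.inj g hg.1 g' hg'.1 (hg.2.trans hg'.2.symm) he
  have hcard : (E.image (lv N)).card = E.card := Finset.card_image_of_injOn hinj
  have hle : ∀ g ∈ E, lv N g ≤ E.card := by
    intro g hg
    rw [hmem] at hg
    have h1 : Finset.Icc 1 (lv N g) ⊆ E.image (lv N) := by
      intro j hj
      rw [Finset.mem_Icc] at hj
      obtain ⟨g', hg', h2, h3⟩ := h.down g hg.1 j hj.1 hj.2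
      rw [Finset.mem_image]
      exact ⟨g', (hmem g').2 ⟨hg', h2.trans hg.2⟩, h3⟩
    have h2 := Finset.card_le_card h1
    rw [Nat.card_Icc, hcard] at h2
    omega
  have hall : ∀ j, 1 ≤ j → j ≤ E.card → ∃ g ∈ E, lv N g = j := by
    have h1 : E.image (lv N) ⊆ Finset.Icc 1 E.card := by
      intro j hj
      rw [Finset.mem_image] at hj
      obtain ⟨g, hg, rfl⟩ := hj
      rw [Finset.mem_Icc]
      exact ⟨h.pos g ((hmem g).1 hg).1, hle g hg⟩
    have h2 : E.image (lv N) = Finset.Icc 1 E.card := by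
      apply Finset.eq_of_subset_of_card_le h1
      rw [hcard, Nat.card_Icc]
      omega
    intro j hj1 hj2
    have h3 : j ∈ E.image (lv N) := by
      rw [h2, Finset.mem_Icc]; exact ⟨hj1, hj2⟩
    rw [Finset.mem_image] at h3
    exact h3
  have hup : ∀ g ∈ G, Function.update c γ col g = c g := by
    intro g hg
    apply Function.update_of_ne
    rintro rfl
    exact hγ hg
  have hupγ : Function.update c γ col γ = col := Function.update_self _ _ _
  refine ⟨?_, ?_, ?_⟩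
  · intro g hg
    rcases Finset.mem_insert.1 hg with rfl | hg
    · omega
    · exact h.pos g hg
  · intro g hg g' hg' hc hlv
    rcases Finset.mem_insert.1 hg with h1 | h1 <;> rcases Finset.mem_insert.1 hg' with h2 | h2
    · rw [h1, h2]
    · exfalso
      rw [h1, hupγ, hup g' h2] at hc
      have h3 := hle g' ((hmem g').2 ⟨h2, hc.symm⟩)
      rw [h1, hl] at hlv
      omega
    · exfalso
      rw [h2, hupγ, hup g h1] at hc
      have h3 := hle g ((hmem g).2 ⟨h1, hc⟩)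
      rw [h2, hl] at hlv
      omega
    · rw [hup g h1, hup g' h2] at hc
      exact h.inj g h1 g' h2 hc hlv
  · intro g hg j hj1 hj2
    rcases Finset.mem_insert.1 hg with h1 | h1
    · rw [h1, hl] at hj2
      rw [h1, hupγ]
      by_cases hj : j ≤ E.card
      · obtain ⟨g', hg', h3⟩ := hall j hj1 hj
        rw [hmem] at hg'
        exact ⟨g', Finset.mem_insert_of_mem hg'.1, by rw [hup g' hg'.1]; exact hg'.2, h3⟩
      · exact ⟨γ, Finset.mem_insert_self _ _, hupγ, by omega⟩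
    · obtain ⟨g', hg', h2, h3⟩ := h.down g h1 j hj1 hj2
      exact ⟨g', Finset.mem_insert_of_mem hg', by rw [hup g' hg', hup g h1]; exact h2, h3⟩


lemma force_main (k T : ℕ) (N : ℝ) (hT : T = k ^ 2 + 1) (hN : N = (T : ℝ) + 1) :
    ∀ (m s : ℕ) (G : Finset ℝ) (c : ℝ → Fin k), s + m = T → Inv N G c → G.card = s →
      (∀ g ∈ G, ∃ l s' : ℕ, s' < s ∧ g = (l : ℝ) * N + s') →
      Force (Lst N T s m) G c := by
  have hNpos : 0 < N := by rw [hN]; positivity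
  intro m
  induction m with
  | zero =>
    intro s G c hs hinv hcard hform
    show Bad G c
    apply bad_of_inv N hNpos k G c hinv
    omega
  | succ m ih =>
    intro s G c hs hinv hcard hform
    show Force (A N T s :: Lst N T (s + 1) m) G c
    intro col
    set l : ℕ := (G.filter (fun g => c g = col)).card + 1 with hl
    have hle : (G.filter (fun g => c g = col)).card ≤ G.card := Finset.card_filter_le _ _
    have hlT : l < T + 2 := by omega
    have hsN : (s:ℝ) < N := by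
      rw [hN]
      have : (s:ℝ) ≤ T := by exact_mod_cast (by omega : s ≤ T)
      linarith
    have hlv : lv N ((l:ℝ) * N + s) = l := lv_eq N hNpos l s (by positivity) hsN
    have hnot : ((l:ℝ) * N + s) ∉ G := by
      intro hmem
      obtain ⟨l', s', hs', he⟩ := hform _ hmem
      have h1 : ((l * (T + 1) + s : ℕ) : ℝ) = ((l' * (T + 1) + s' : ℕ) : ℝ) := by
        push_cast
        rw [← hN]; exact he
      have h2 : l * (T + 1) + s = l' * (T + 1) + s' := by exact_mod_cast h1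
      have h3 : (l * (T + 1) + s) % (T + 1) = s := by
        rw [Nat.mul_add_mod_self_right]
        exact Nat.mod_eq_of_lt (by omega)
      have h4 : (l' * (T + 1) + s') % (T + 1) = s' := by
        rw [Nat.mul_add_mod_self_right]
        exact Nat.mod_eq_of_lt (by omega)
      rw [h2, h4] at h3
      omega
    refine ⟨(l:ℝ) * N + s, ?_, hnot, ?_⟩
    · unfold A
      exact Finset.mem_image.2 ⟨l, Finset.mem_range.2 hlT, rfl⟩
    · apply ih (s + 1)
      · omega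
      · exact inv_step N G c hinv col _ hnot (by rw [hlv, hl]; congr!)
      · rw [Finset.card_insert_of_notMem hnot, hcard]
      · intro g hg
        rcases Finset.mem_insert.1 hg with h | h
        · exact ⟨l, s, by omega, h⟩
        · obtain ⟨l', s', hs', he⟩ := hform g h
          exact ⟨l', s', by omega, he⟩


lemma force_all_length (N : ℝ) (T : ℕ) : ∀ (m s : ℕ), (Lst N T s m).length = m := by
  intro m
  induction m with
  | zero => intro s; rfl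
  | succ m ih =>
    intro s
    rw [Lst, List.length_cons, ih]

lemma force_all (k : ℕ) : ∃ L : List (Finset ℝ), L.length = k ^ 2 + 1 ∧
    ∀ c : ℝ → Fin k, Force L ∅ c := by
  refine ⟨Lst (((k ^ 2 + 1 : ℕ) : ℝ) + 1) (k ^ 2 + 1) 0 (k ^ 2 + 1),
    force_all_length _ _ _ _, fun c => ?_⟩
  refine force_main k (k ^ 2 + 1) _ rfl rfl (k ^ 2 + 1) 0 ∅ c (by omega) ?_
    Finset.card_empty ?_
  · exact ⟨fun g hg => absurd hg (Finset.notMem_empty g),
      fun g hg => absurd hg (Finset.notMem_empty g),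
      fun g hg => absurd hg (Finset.notMem_empty g)⟩
  · intro g hg
    exact absurd hg (Finset.notMem_empty g)


/-- for every `k` there is a family of discs of ply at most `k² + 1` without conflict-free
colouring with `k` colours (total colourings) -/
lemma main_k (k : ℕ) : ∃ F : Finset Disc, (∀ D ∈ F, 0 < D.2.2) ∧ PlyLE F (k ^ 2 + 1) ∧
    ∀ χ : Disc → Fin k, ∃ p : ℝ × ℝ, (∃ D ∈ F, Mem p D) ∧
      ∀ D ∈ F, Mem p D → ∃ D' ∈ F, Mem p D' ∧ D' ≠ D ∧ χ D' = χ D := by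
  obtain ⟨L, hL, hf⟩ := force_all k
  obtain ⟨σ, F, P, hg⟩ := gad_all (Fin k) L ∅
  refine ⟨F, fun D hD => (hg.box D hD).1, hL ▸ hg.ply, fun χ => ?_⟩
  rcases Nat.eq_zero_or_pos k with hk | hk
  · subst hk
    exact (χ (0, 0, 0)).elim0
  · obtain ⟨p, -, h1, -, h3⟩ := hg.win χ (fun _ => ⟨0, hk⟩) (hf _)
    refine ⟨p, ?_, fun D hD hm => ?_⟩
    · rcases h1 with ⟨g, hg', -⟩ | h
      · simp at hg'
      · exact h
    · rcases h3 D hD hm with ⟨g, hg', -⟩ | h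
      · simp at hg'
      · exact h


lemma main_col_aux (k : ℕ) (hk : 1 ≤ k) (hmain : ∃ F : Finset Disc, (∀ D ∈ F, 0 < D.2.2) ∧ PlyLE F (k ^ 2 + 1) ∧
    ∀ χ : Disc → Fin k, ∃ p : ℝ × ℝ, (∃ D ∈ F, Mem p D) ∧
      ∀ D ∈ F, Mem p D → ∃ D' ∈ F, Mem p D' ∧ D' ≠ D ∧ χ D' = χ D) :
    ∃ F : Finset Disc, (∀ D ∈ F, 0 < D.2.2) ∧ PlyLE F (k ^ 2 + 1) ∧
    ∀ (m : ℕ) (χ : {D // D ∈ F} → Fin m), ConflictFree F χ → k < m := by
  obtain ⟨F, h1, h2, h3⟩ := hmain
  refine ⟨F, h1, h2, fun m χ hχ => ?_⟩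
  by_contra hmk
  have hmk : m ≤ k := not_lt.1 hmk
  obtain ⟨p, ⟨D0, hD0, hm0⟩, hp⟩ := h3 (fun D => if h : D ∈ F then Fin.castLE hmk (χ ⟨D, h⟩) else ⟨0, hk⟩)
  obtain ⟨D, hD, hu⟩ := hχ p ⟨⟨D0, hD0⟩, hm0⟩
  obtain ⟨D', hD', hm', hne, hc⟩ := hp D.1 D.2 hD
  have := hu ⟨D', hD'⟩ hm' (fun h => hne (by rw [← h]))
  apply this
  simp only [hD', D.2, dif_pos] at hc
  exact Fin.castLE_injective hmk hc

lemma main_col (k : ℕ) (hk : 1 ≤ k) : ∃ F : Finset Disc, (∀ D ∈ F, 0 < D.2.2) ∧ PlyLE F (k ^ 2 + 1) ∧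
    ∀ (m : ℕ) (χ : {D // D ∈ F} → Fin m), ConflictFree F χ → k < m :=
  main_col_aux k hk (main_k k)


lemma choose_k (C : ℝ) : ∃ k : ℕ, 1 ≤ k ∧ C * Real.log ((k : ℝ) ^ 2 + 1) < k := by
  obtain ⟨n, hn⟩ := exists_nat_gt (4 * |C| + 2)
  have hC := abs_nonneg C
  have hn2 : (2 : ℝ) < n := by linarith
  have hn2' : 2 < n := by exact_mod_cast hn2
  have hnn : 1 ≤ n ^ 2 := Nat.one_le_pow _ _ (by omega)
  have hn4 : 1 < n ^ 2 := by nlinarith
  refine ⟨n ^ 2 - 1, by omega, ?_⟩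
  rw [Nat.cast_sub hnn]
  push_cast
  have h1 : Real.log (((n : ℝ) ^ 2 - 1) ^ 2 + 1) ≤ 4 * ((n : ℝ) - 1) := by
    calc Real.log (((n : ℝ) ^ 2 - 1) ^ 2 + 1) ≤ Real.log ((n : ℝ) ^ 4) := by
          apply Real.log_le_log (by positivity)
          nlinarith [sq_nonneg ((n : ℝ)), sq_nonneg ((n : ℝ) - 1)]
      _ = 4 * Real.log n := by rw [Real.log_pow]; norm_num
      _ ≤ 4 * ((n : ℝ) - 1) := by
          have := Real.log_le_sub_one_of_pos (show (0 : ℝ) < n by linarith)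
          linarith
  have h0 : 0 ≤ Real.log (((n : ℝ) ^ 2 - 1) ^ 2 + 1) := Real.log_nonneg (by nlinarith [sq_nonneg ((n : ℝ) ^ 2 - 1)])
  calc C * Real.log (((n : ℝ) ^ 2 - 1) ^ 2 + 1) ≤ |C| * Real.log (((n : ℝ) ^ 2 - 1) ^ 2 + 1) :=
        mul_le_mul_of_nonneg_right (le_abs_self C) h0
    _ ≤ |C| * (4 * ((n : ℝ) - 1)) := mul_le_mul_of_nonneg_left h1 hC
    _ < (n : ℝ) ^ 2 - 1 := by nlinarith

/-- **Main theorem.** (1) For every `k ≥ 1` there is a finite family of discs of ply at most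
`k² + 1` all of whose conflict-free colourings use more than `k` colours.
(2) Consequently no bound `C log t` holds: for every real `C` there are `t ≥ 2` and a finite
family of discs of ply at most `t` such that every conflict-free colouring uses more than
`C log t` colours. -/
theorem result :
    (∀ k : ℕ, 1 ≤ k → ∃ F : Finset Disc, (∀ D ∈ F, 0 < D.2.2) ∧ PlyLE F (k ^ 2 + 1) ∧
      ∀ (m : ℕ) (χ : {D // D ∈ F} → Fin m), ConflictFree F χ → k < m) ∧
    (∀ C : ℝ, ∃ t : ℕ, 2 ≤ t ∧ ∃ F : Finset Disc, (∀ D ∈ F, 0 < D.2.2) ∧ PlyLE F t ∧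
      ∀ (m : ℕ) (χ : {D // D ∈ F} → Fin m), ConflictFree F χ → C * Real.log t < m) := by
  refine ⟨main_col, fun C => ?_⟩
  obtain ⟨k, hk, hC⟩ := choose_k C
  obtain ⟨F, h1, h2, h3⟩ := main_col k hk
  refine ⟨k ^ 2 + 1, by nlinarith [Nat.one_le_pow 2 k hk], F, h1, h2, fun m χ hχ => ?_⟩
  have hkm : (k : ℝ) < m := by exact_mod_cast h3 m χ hχ
  push_cast
  linarith

end Pool.Agent.Results.MP_f0f1b2_co.SqrtPly
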